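import Mathlib

set_option autoImplicit false

namespace Pool.Agent.N680.Weird

open Finset

/-- every integer of `[u, v]` is a sum of distinct elements of `X` -/
def Cov (X : Finset ℕ) (u v : ℕ) : Prop :=
  ∀ n, u ≤ n → n ≤ v → ∃ Y ⊆ X, ∑ y ∈ Y, y = n

theorem Cov.mono {X X' : Finset ℕ} {u v u' v' : ℕ} (h : Cov X u v) (hX : X ⊆ X')
    (hu : u ≤ u') (hv : v' ≤ v) : Cov X' u' v' := by
  intro n h1 h2
  obtain ⟨Y, hY, hs⟩ := h n (hu.trans h1) (h2.trans hv)
  exact ⟨Y, hY.trans hX, hs⟩

theorem Cov.insert {X : Finset ℕ} {u v x : ℕ} (h : Cov X u v) (hx : x ∉ X)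
    (hux : u + x ≤ v + 1) : Cov (insert x X) u (v + x) := by
  intro n h1 h2
  rcases le_or_gt n v with h3 | h3
  · obtain ⟨Y, hY, hs⟩ := h n h1 h3
    exact ⟨Y, hY.trans (subset_insert _ _), hs⟩
  · obtain ⟨Y, hY, hs⟩ := h (n - x) (by omega) (by omega)
    refine ⟨Insert.insert x Y, insert_subset_insert _ hY, ?_⟩
    rw [sum_insert (fun hxY => hx (hY hxY)), hs]
    omega

theorem Cov.union {X : Finset ℕ} {u v : ℕ} (h : Cov X u v) (Z : Finset ℕ)
    (hd : Disjoint X Z) (hz : ∀ z ∈ Z, u + z ≤ v + 1) : Cov (X ∪ Z) u (v + ∑ z ∈ Z, z) := by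
  induction Z using Finset.induction_on with
  | empty => simpa using h
  | @insert a Z ha ih =>
    have hd' : Disjoint X Z := hd.mono_right (subset_insert _ _)
    have h1 := ih hd' (fun z hz' => hz z (mem_insert_of_mem hz'))
    rw [union_insert, sum_insert ha, add_comm a, ← add_assoc]
    apply h1.insert
    · rw [mem_union, not_or]
      exact ⟨fun haX => (disjoint_left.1 hd haX) (mem_insert_self _ _), ha⟩
    · have := hz a (mem_insert_self _ _)
      omega

/-- pigeonhole: many disjoint pairs with the same small difference, so a long arithmetic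
progression of subset sums -/
theorem exists_progression (E : Finset ℕ) (R H M : ℕ) (hH : 0 < H)
    (hE : ∀ e ∈ E, e < R * H) (hcard : R + H * H * M ≤ E.card) (hM : 0 < M) :
    ∃ g a, 0 < g ∧ g < H ∧ a ≤ M * (R * H) ∧
      ∀ j, j ≤ M → ∃ Y ⊆ E, ∑ y ∈ Y, y = a + g * j := by
  classical
  set F : ℕ → Finset ℕ := fun b => E.filter (fun e => e / H = b) with hF
  set Rich : Finset ℕ := (range R).filter (fun b => 2 ≤ (F b).card) with hRich
  have hFcard : ∀ b, (F b).card ≤ H := by
    intro b
    have : F b ⊆ Finset.Ico (b * H) (b * H + H) := by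
      intro e he
      simp only [hF, mem_filter] at he
      rw [Finset.mem_Ico]
      have := Nat.div_add_mod e H
      have h3 := Nat.mod_lt e hH
      rw [he.2, mul_comm] at this
      constructor <;> omega
    calc (F b).card ≤ (Finset.Ico (b * H) (b * H + H)).card := card_le_card this
      _ = H := by simp
  have hsum : E.card = ∑ b ∈ range R, (F b).card := by
    apply card_eq_sum_card_fiberwise
    intro e he
    simp only [coe_range, Set.mem_Iio]
    exact (Nat.div_lt_iff_lt_mul hH).2 (hE e he)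
  have hRc : H * M ≤ Rich.card := by
    have h1 : E.card ≤ R + Rich.card * H := by
      rw [hsum]
      calc ∑ b ∈ range R, (F b).card
          ≤ ∑ b ∈ range R, (1 + if 2 ≤ (F b).card then H else 0) := by
            apply sum_le_sum
            intro b _
            have := hFcard b
            split_ifs with h
            · omega
            · omega
        _ = R + Rich.card * H := by
            rw [sum_add_distrib, ← sum_filter, sum_const, sum_const]
            simp [hRich]
    by_contra hcon
    push Not at hcon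
    have h2 : Rich.card * H < H * M * H := by
      exact Nat.mul_lt_mul_of_pos_right hcon hH
    have h3 : H * M * H = H * H * M := by ring
    omega
  have hpair : ∀ b ∈ Rich, ∃ x y, x ∈ F b ∧ y ∈ F b ∧ x < y := by
    intro b hb
    simp only [hRich, mem_filter] at hb
    obtain ⟨x, hx, y, hy, hxy⟩ := (one_lt_card.1 (by omega : 1 < (F b).card))
    rcases lt_or_gt_of_ne hxy with h | h
    · exact ⟨x, y, hx, hy, h⟩
    · exact ⟨y, x, hy, hx, h⟩
  choose! x y hx hy hxy using hpair
  have hd : ∀ b ∈ Rich, y b - x b ∈ range H := by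
    intro b hb
    have h1 := hx b hb
    have h2 := hy b hb
    simp only [hF, mem_filter] at h1 h2
    rw [mem_range]
    have e1 := Nat.div_add_mod (x b) H
    have e2 := Nat.div_add_mod (y b) H
    have l2 := Nat.mod_lt (y b) hH
    rw [h1.2] at e1
    rw [h2.2] at e2
    omega
  have hHne : (range H).Nonempty := ⟨0, by simpa using hH⟩
  obtain ⟨g, hg, hgc⟩ := exists_le_card_fiber_of_mul_le_card_of_maps_to hd hHne
    (n := M) (by rw [card_range]; exact hRc)
  obtain ⟨S, hS, hSc⟩ := exists_subset_card_eq hgc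
  have hSmem : ∀ b ∈ S, b ∈ Rich ∧ y b - x b = g := by
    intro b hb
    have := hS hb
    simpa [mem_filter] using this
  have hSne : S.Nonempty := by
    rw [← card_pos]; omega
  have hg0 : 0 < g := by
    obtain ⟨b, hb⟩ := hSne
    obtain ⟨h1, h2⟩ := hSmem b hb
    have := hxy b h1
    omega
  refine ⟨g, ∑ b ∈ S, x b, hg0, by simpa using hg, ?_, ?_⟩
  · calc ∑ b ∈ S, x b ≤ ∑ b ∈ S, R * H := by
          apply sum_le_sum
          intro b hb
          have := hx b (hSmem b hb).1
          simp only [hF, mem_filter] at this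
          exact (hE _ this.1).le
      _ = M * (R * H) := by rw [sum_const, hSc]; rfl
  · intro j hj
    obtain ⟨S', hS', hSc'⟩ := exists_subset_card_eq (hSc ▸ hj : j ≤ S.card)
    set φ : ℕ → ℕ := fun b => x b + if b ∈ S' then g else 0 with hφ
    have hφF : ∀ b ∈ S, φ b ∈ F b := by
      intro b hb
      obtain ⟨h1, h2⟩ := hSmem b hb
      simp only [hφ]
      split_ifs with h
      · have e : x b + g = y b := by have := hxy b h1; omega
        rw [e]
        exact hy b h1
      · simpa using hx b h1
    have hinj : Set.InjOn φ (S : Set ℕ) := by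
      intro b hb c hc hbc
      have h1 := hφF b hb
      have h2 := hφF c hc
      simp only [hF, mem_filter] at h1 h2
      rw [← h1.2, ← h2.2, hbc]
    refine ⟨S.image φ, ?_, ?_⟩
    · intro e he
      obtain ⟨b, hb, rfl⟩ := mem_image.1 he
      exact (mem_filter.1 (hφF b hb)).1
    · rw [sum_image hinj]
      simp only [hφ]
      rw [sum_add_distrib, ← sum_filter, sum_const]
      congr 1
      have : S.filter (fun b => b ∈ S') = S' := by
        ext b
        simp only [mem_filter]
        exact ⟨fun h => h.2, fun h => ⟨hS' h, h⟩⟩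
      rw [this, hSc', smul_eq_mul, mul_comm]

/-- all residues are subset sums of many numbers coprime to the modulus -/
theorem exists_residue (B : Finset ℕ) (g V : ℕ) (hg : 0 < g) (hB : ∀ b ∈ B, Nat.Coprime b g)
    (hV : ∀ b ∈ B, b ≤ V) (hcard : g * g ≤ B.card) (c : ℕ) :
    ∃ Y ⊆ B, ∑ y ∈ Y, y ≡ c [MOD g] ∧ ∑ y ∈ Y, y ≤ g * V := by
  classical
  have hmaps : ∀ b ∈ B, b % g ∈ range g := fun b _ => mem_range.2 (Nat.mod_lt _ hg)
  obtain ⟨r, hr, hrc⟩ := exists_le_card_fiber_of_mul_le_card_of_maps_to hmaps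
    ⟨0, by simpa using hg⟩ (n := g) (by rw [card_range]; exact hcard)
  have hne : (B.filter (fun b => b % g = r)).Nonempty := by
    rw [← card_pos]; omega
  obtain ⟨b0, hb0⟩ := hne
  rw [mem_filter] at hb0
  have hcop : Nat.Coprime r g := by
    have := hB b0 hb0.1
    rw [← hb0.2]
    rw [Nat.coprime_iff_gcd_eq_one] at this ⊢
    rw [← Nat.gcd_rec, Nat.gcd_comm]
    exact this
  -- find i < g with i * r ≡ c
  obtain ⟨i, hi, hic⟩ : ∃ i, i < g ∧ i * r ≡ c [MOD g] := by
    obtain ⟨s, hs⟩ := Nat.exists_mul_mod_eq_of_coprime c hcop (by omega)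
    refine ⟨s % g, Nat.mod_lt _ hg, ?_⟩
    have h1 : (s % g) * r ≡ s * r [MOD g] := (Nat.mod_modEq s g).mul_right r
    refine h1.trans ?_
    rw [mul_comm]
    rw [Nat.ModEq]
    exact hs.2
  obtain ⟨Y, hY, hYc⟩ := exists_subset_card_eq (hi.le.trans hrc)
  refine ⟨Y, fun b hb => (mem_filter.1 (hY hb)).1, ?_, ?_⟩
  · refine Nat.ModEq.trans ?_ hic
    have h1 : ∀ b ∈ Y, b ≡ r [MOD g] := by
      intro b hb
      have := (mem_filter.1 (hY hb)).2
      rw [Nat.ModEq, this, Nat.mod_eq_of_lt (by simpa using hr)]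
    have h2 : ∑ b ∈ Y, b ≡ ∑ b ∈ Y, r [MOD g] := by
      clear hYc hY
      induction Y using Finset.induction_on with
      | empty => simp; rfl
      | @insert a Y ha ih =>
        rw [sum_insert ha, sum_insert ha]
        exact Nat.ModEq.add (h1 a (mem_insert_self _ _))
          (ih (fun b hb => h1 b (mem_insert_of_mem hb)))
    rw [sum_const, hYc, smul_eq_mul] at h2
    exact h2
  · calc ∑ b ∈ Y, b ≤ ∑ b ∈ Y, V := by
          apply sum_le_sum
          intro b hb
          exact hV b (mem_filter.1 (hY hb)).1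
      _ = i * V := by rw [sum_const, hYc]; rfl
      _ ≤ g * V := Nat.mul_le_mul_right _ hi.le

end Pool.Agent.N680.Weird
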