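import Mathlib
import Pool.Agent.N680.Weird.Cov

set_option autoImplicit false

namespace Pool.Agent.N680.Weird

open Finset

/-- the sum of all products of `j` distinct elements of `B` -/
def esum (B : Finset ℕ) (j : ℕ) : ℕ := ∑ S ∈ B.powersetCard j, ∏ p ∈ S, p

/-- the products of `j` distinct elements of `B` -/
def lev (B : Finset ℕ) (j : ℕ) : Finset ℕ := (B.powersetCard j).image (fun S => ∏ p ∈ S, p)

/-- the products of at most `j` distinct elements of `B` -/
def levs (B : Finset ℕ) (j : ℕ) : Finset ℕ :=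
  (B.powerset.filter (fun S => S.card ≤ j)).image (fun S => ∏ p ∈ S, p)

theorem prod_inj {B S S' : Finset ℕ} (hB : ∀ p ∈ B, p.Prime) (hS : S ⊆ B) (hS' : S' ⊆ B)
    (h : ∏ p ∈ S, p = ∏ p ∈ S', p) : S = S' := by
  have h1 := Nat.primeFactors_prod (s := S) (fun p hp => hB p (hS hp))
  have h2 := Nat.primeFactors_prod (s := S') (fun p hp => hB p (hS' hp))
  rw [← h1, ← h2, h]

theorem lev_injOn {B : Finset ℕ} (hB : ∀ p ∈ B, p.Prime) (j : ℕ) :
    Set.InjOn (fun S : Finset ℕ => ∏ p ∈ S, p) (B.powersetCard j : Set (Finset ℕ)) := by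
  intro S hS S' hS' h
  rw [mem_coe, mem_powersetCard] at hS hS'
  exact prod_inj hB hS.1 hS'.1 h

theorem card_lev {B : Finset ℕ} (hB : ∀ p ∈ B, p.Prime) (j : ℕ) :
    (lev B j).card = B.card.choose j := by
  rw [lev, card_image_of_injOn (lev_injOn hB j), card_powersetCard]

theorem sum_lev {B : Finset ℕ} (hB : ∀ p ∈ B, p.Prime) (j : ℕ) :
    ∑ x ∈ lev B j, x = esum B j := by
  rw [lev, sum_image (lev_injOn hB j), esum]

theorem disjoint_lev {B : Finset ℕ} (hB : ∀ p ∈ B, p.Prime) {i j : ℕ} (hij : i ≠ j) :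
    Disjoint (lev B i) (lev B j) := by
  rw [disjoint_left]
  intro x hx hx'
  obtain ⟨S, hS, rfl⟩ := mem_image.1 hx
  obtain ⟨S', hS', h⟩ := mem_image.1 hx'
  rw [mem_powersetCard] at hS hS'
  have := prod_inj hB hS'.1 hS.1 h
  apply hij
  rw [← hS.2, ← hS'.2, this]

theorem disjoint_levs {B : Finset ℕ} (hB : ∀ p ∈ B, p.Prime) {i j : ℕ} (hij : i < j) :
    Disjoint (levs B i) (lev B j) := by
  rw [disjoint_left]
  intro x hx hx'
  obtain ⟨S, hS, rfl⟩ := mem_image.1 hx
  obtain ⟨S', hS', h⟩ := mem_image.1 hx'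
  rw [mem_powersetCard] at hS'
  rw [mem_filter, mem_powerset] at hS
  have := prod_inj hB hS'.1 hS.1 h
  have h2 := hS.2
  rw [← this, hS'.2] at h2
  omega

theorem lev_subset_levs (B : Finset ℕ) {i j : ℕ} (hij : i ≤ j) : lev B i ⊆ levs B j := by
  intro x hx
  obtain ⟨S, hS, rfl⟩ := mem_image.1 hx
  rw [mem_powersetCard] at hS
  apply mem_image_of_mem
  rw [mem_filter, mem_powerset]
  exact ⟨hS.1, by omega⟩

theorem levs_mono (B : Finset ℕ) {i j : ℕ} (hij : i ≤ j) : levs B i ⊆ levs B j := by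
  apply image_subset_image
  intro S hS
  rw [mem_filter] at hS ⊢
  exact ⟨hS.1, by omega⟩

theorem levs_subset_properDivisors {B : Finset ℕ} (hB : ∀ p ∈ B, p.Prime) {j : ℕ}
    (hj : j < B.card) : levs B j ⊆ (∏ p ∈ B, p).properDivisors := by
  intro x hx
  obtain ⟨S, hS, rfl⟩ := mem_image.1 hx
  rw [mem_filter, mem_powerset] at hS
  rw [Nat.mem_properDivisors]
  refine ⟨prod_dvd_prod_of_subset _ _ _ hS.1, ?_⟩
  have hss : S ⊂ B := by
    refine ⟨hS.1, fun h => ?_⟩
    have := card_le_card h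
    omega
  obtain ⟨q, hqB, hqS⟩ := exists_of_ssubset hss
  rw [← prod_sdiff hS.1]
  have hpos : 0 < ∏ p ∈ S, p := prod_pos (fun p hp => (hB p (hS.1 hp)).pos)
  have h1 : 1 < ∏ p ∈ B \ S, p := by
    have hq : q ∈ B \ S := mem_sdiff.2 ⟨hqB, hqS⟩
    calc 1 < q := (hB q hqB).one_lt
      _ ≤ ∏ p ∈ B \ S, p := by
        apply Nat.le_of_dvd
        · exact prod_pos (fun p hp => (hB p (mem_sdiff.1 hp).1).pos)
        · exact dvd_prod_of_mem _ hq
  nlinarith

/-- from a level to the next one, few prime factors -/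
theorem choose_lb (T : ℕ) (j : ℕ) (h3 : 3 ≤ j) (hj : 3 * j ≤ T + 1) :
    2 ^ (j - 3) * T.choose 3 ≤ T.choose j := by
  induction j, h3 using Nat.le_induction with
  | base => simp
  | succ j h3 ih =>
    have ih' := ih (by omega)
    have h1 := Nat.choose_succ_right_eq T j
    have h2 : 2 * (j + 1) ≤ T - j := by omega
    have h4 : 2 * T.choose j ≤ T.choose (j + 1) := by
      have : T.choose j * (2 * (j + 1)) ≤ T.choose (j + 1) * (j + 1) := by
        rw [h1]; exact Nat.mul_le_mul_left _ h2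
      have h5 : (2 * T.choose j) * (j + 1) ≤ T.choose (j + 1) * (j + 1) := by
        calc (2 * T.choose j) * (j + 1) = T.choose j * (2 * (j + 1)) := by ring
          _ ≤ _ := this
      exact Nat.le_of_mul_le_mul_right h5 (by omega)
    have h5 : j + 1 - 3 = (j - 3) + 1 := by omega
    rw [h5, pow_succ]
    calc 2 ^ (j - 3) * 2 * T.choose 3 = 2 * (2 ^ (j - 3) * T.choose 3) := by ring
      _ ≤ 2 * T.choose j := Nat.mul_le_mul_left _ ih'
      _ ≤ _ := h4

theorem esum_lb {B : Finset ℕ} {z : ℕ} (hB : ∀ p ∈ B, z ≤ p) (j : ℕ) :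
    B.card.choose j * z ^ j ≤ esum B j := by
  rw [esum, ← card_powersetCard j B, ← smul_eq_mul, ← sum_const]
  apply sum_le_sum
  intro S hS
  rw [mem_powersetCard] at hS
  rw [← hS.2]
  exact pow_card_le_prod S _ _ (fun p hp => hB p (hS.1 hp))

theorem prod_ub {B S : Finset ℕ} {z : ℕ} (hB : ∀ p ∈ B, p < 2 * z) (hS : S ⊆ B) :
    ∏ p ∈ S, p ≤ (2 * z) ^ S.card :=
  prod_le_pow_card S _ _ (fun p hp => (hB p (hS hp)).le)

theorem stepI {B : Finset ℕ} {z : ℕ} (hB1 : ∀ p ∈ B, z ≤ p) (hB2 : ∀ p ∈ B, p < 2 * z)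
    (j : ℕ) (h3 : 3 ≤ j) (hj : 3 * j ≤ B.card + 1) (hc : 16 * z ≤ B.card.choose 3) :
    ∀ S ∈ B.powersetCard (j + 1), ∏ p ∈ S, p ≤ esum B j := by
  intro S hS
  rw [mem_powersetCard] at hS
  have h1 := prod_ub hB2 hS.1
  rw [hS.2] at h1
  refine h1.trans (le_trans ?_ (esum_lb hB1 j))
  have h2 := choose_lb B.card j h3 hj
  have h4 : 2 ^ (j + 1) * z ≤ B.card.choose j := by
    refine le_trans ?_ h2
    have : 2 ^ (j + 1) = 2 ^ (j - 3) * 16 := by
      have : j + 1 = (j - 3) + 4 := by omega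
      rw [this, pow_add]; norm_num
    rw [this, mul_assoc]
    exact Nat.mul_le_mul_left _ hc
  calc (2 * z) ^ (j + 1) = 2 ^ (j + 1) * z * z ^ j := by rw [mul_pow, pow_succ z]; ring
    _ ≤ _ := Nat.mul_le_mul_right _ h4

/-- from a level to the next one, many prime factors -/
theorem stepII {B : Finset ℕ} {z : ℕ} (hz : 0 < z) (hB : ∀ p ∈ B, p.Prime)
    (hB1 : ∀ p ∈ B, z ≤ p) (hB2 : ∀ p ∈ B, p < 2 * z) (j : ℕ) (h1 : 1 ≤ j)
    (hj : j + 1 < B.card) (hc : 4 * z ≤ (j + 1).choose 2) :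
    ∀ S ∈ B.powersetCard (j + 1), ∏ p ∈ S, p ≤ esum B j := by
  classical
  intro S hS
  rw [mem_powersetCard] at hS
  have hss : S ⊂ B := by
    refine ⟨hS.1, fun h => ?_⟩
    have := card_le_card h
    omega
  obtain ⟨q, hqB, hqS⟩ := exists_of_ssubset hss
  set φ : Finset ℕ → Finset ℕ := fun Q => insert q (S \ Q) with hφ
  have hinj : Set.InjOn φ (S.powersetCard 2 : Set (Finset ℕ)) := by
    intro Q hQ Q' hQ' h
    rw [mem_coe, mem_powersetCard] at hQ hQ'
    have e1 : S \ Q = S \ Q' := by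
      have h5 : (φ Q).erase q = (φ Q').erase q := by rw [h]
      simp only [hφ] at h5
      rw [erase_insert, erase_insert] at h5
      · exact h5
      · exact fun h => hqS (mem_sdiff.1 h).1
      · exact fun h => hqS (mem_sdiff.1 h).1
    calc Q = S \ (S \ Q) := by rw [Finset.sdiff_sdiff_eq_self hQ.1]
      _ = S \ (S \ Q') := by rw [e1]
      _ = Q' := by rw [Finset.sdiff_sdiff_eq_self hQ'.1]
  have hmaps : ∀ Q ∈ S.powersetCard 2, φ Q ∈ B.powersetCard j := by
    intro Q hQ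
    rw [mem_powersetCard] at hQ ⊢
    refine ⟨insert_subset hqB (sdiff_subset.trans hS.1), ?_⟩
    rw [card_insert_of_notMem (fun h => hqS (mem_sdiff.1 h).1), card_sdiff_of_subset hQ.1, hS.2,
      hQ.2]
    omega
  have hterm : ∀ Q ∈ S.powersetCard 2, ∏ p ∈ S, p ≤ 4 * z * ∏ p ∈ φ Q, p := by
    intro Q hQ
    rw [mem_powersetCard] at hQ
    simp only [hφ]
    rw [prod_insert (fun h => hqS (mem_sdiff.1 h).1)]
    have e1 := prod_sdiff (f := fun p : ℕ => p) hQ.1
    have e2 := prod_ub hB2 (hQ.1.trans hS.1)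
    rw [hQ.2] at e2
    have e3 := hB1 q hqB
    rw [← e1]
    calc (∏ p ∈ S \ Q, p) * ∏ p ∈ Q, p ≤ (∏ p ∈ S \ Q, p) * (2 * z) ^ 2 :=
          Nat.mul_le_mul_left _ e2
      _ = 4 * z * (z * ∏ p ∈ S \ Q, p) := by ring
      _ ≤ 4 * z * (q * ∏ p ∈ S \ Q, p) := by
          apply Nat.mul_le_mul_left
          exact Nat.mul_le_mul_right _ e3
  have hsum : (S.powersetCard 2).card * ∏ p ∈ S, p ≤ 4 * z * esum B j := by
    calc (S.powersetCard 2).card * ∏ p ∈ S, p = ∑ Q ∈ S.powersetCard 2, ∏ p ∈ S, p := by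
          rw [sum_const, smul_eq_mul]
      _ ≤ ∑ Q ∈ S.powersetCard 2, 4 * z * ∏ p ∈ φ Q, p := sum_le_sum hterm
      _ = 4 * z * ∑ R ∈ (S.powersetCard 2).image φ, ∏ p ∈ R, p := by
          rw [← mul_sum, sum_image hinj]
      _ ≤ 4 * z * esum B j := by
          apply Nat.mul_le_mul_left
          apply sum_le_sum_of_subset
          intro R hR
          obtain ⟨Q, hQ, rfl⟩ := mem_image.1 hR
          exact hmaps Q hQ
  rw [card_powersetCard, hS.2] at hsum
  have : 4 * z * ∏ p ∈ S, p ≤ 4 * z * esum B j :=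
    (Nat.mul_le_mul_right _ hc).trans hsum
  exact Nat.le_of_mul_le_mul_left this (by omega)

/-- the sum of the products of all but one elements of `P` -/
def wsum (P : Finset ℕ) : ℕ := ∑ p ∈ P, ∏ r ∈ P.erase p, r

theorem wsum_le_esum {B : Finset ℕ} : wsum B ≤ esum B (B.card - 1) := by
  classical
  have hinj : Set.InjOn (fun p : ℕ => B.erase p) (B : Set ℕ) := by
    intro p hp q hq h
    by_contra hne
    have : p ∈ B.erase q := mem_erase.2 ⟨hne, hp⟩
    simp only at h
    rw [← h] at this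
    exact (notMem_erase p B) this
  rw [wsum, esum, ← sum_image (f := fun S : Finset ℕ => ∏ r ∈ S, r) hinj]
  apply sum_le_sum_of_subset
  intro S hS
  obtain ⟨p, hp, rfl⟩ := mem_image.1 hS
  rw [mem_powersetCard]
  exact ⟨erase_subset _ _, card_erase_of_mem hp⟩

/-- the base block -/
theorem base {B : Finset ℕ} {z H R M : ℕ} (hz : 0 < z) (hB : ∀ p ∈ B, p.Prime)
    (hB1 : ∀ p ∈ B, z ≤ p) (hB2 : ∀ p ∈ B, p < 2 * z)
    (hH0 : 0 < H) (hHz : H ≤ z) (hHT : H * H ≤ B.card)
    (hRH : (2 * z) ^ 4 < R * H) (hRM : R + H * H * M ≤ B.card.choose 4)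
    (hM : (2 * z) ^ 3 + 2 * z ≤ M) (h3 : 32 * z ^ 2 ≤ B.card.choose 3)
    (h2 : ∀ j, B.card < 3 * j → 4 * z ≤ (j + 1).choose 2) (hT : 6 < B.card) :
    ∃ A, A ≤ M * (R * H) + H * (2 * z) ∧ Cov (∏ p ∈ B, p).properDivisors A (wsum B) := by
  classical
  have hz2 : z ≤ z ^ 2 := Nat.le_self_pow (by norm_num) z
  have hM0 : 0 < M := by
    have : 0 < (2 * z) ^ 3 := by positivity
    omega
  have hlevb : ∀ j, ∀ e ∈ lev B j, e ≤ (2 * z) ^ j := by
    intro j e he
    obtain ⟨S, hS, rfl⟩ := mem_image.1 he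
    rw [mem_powersetCard] at hS
    have := prod_ub hB2 hS.1
    rwa [hS.2] at this
  obtain ⟨g, a, hg0, hgH, ha, hprog⟩ := exists_progression (lev B 4) R H M hH0
    (fun e he => lt_of_le_of_lt (hlevb 4 e he) hRH)
    (by rw [card_lev hB]; exact hRM) hM0
  set A := a + g * (2 * z) with hA
  have hlev1 : ∀ x, x ∈ lev B 1 ↔ x ∈ B := by
    intro x
    simp only [lev, mem_image, mem_powersetCard]
    constructor
    · rintro ⟨S, ⟨hS, hc⟩, rfl⟩
      obtain ⟨y, rfl⟩ := card_eq_one.1 hc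
      simpa using hS
    · intro hx
      exact ⟨{x}, ⟨by simpa using hx, by simp⟩, by simp⟩
  have hBlev : B = lev B 1 := by ext x; exact (hlev1 x).symm
  have hdisj : Disjoint B (lev B 4) := by
    conv_lhs => rw [hBlev]
    exact disjoint_lev hB (by norm_num)
  -- the first interval
  have hc0 : Cov (B ∪ lev B 4) A (A + (2 * z) ^ 3) := by
    intro n hn1 hn2
    obtain ⟨Y1, hY1, hY1c, hY1s⟩ := exists_residue B g (2 * z) hg0
      (fun b hb => by
        apply (Nat.Prime.coprime_iff_not_dvd (hB b hb)).2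
        intro hd
        have := Nat.le_of_dvd hg0 hd
        have := hB1 b hb
        omega)
      (fun b hb => (hB2 b hb).le)
      (le_trans (Nat.mul_le_mul hgH.le hgH.le) hHT) (n - a)
    set s := ∑ y ∈ Y1, y with hs
    have hle : a + s ≤ n := by omega
    obtain ⟨j, hj⟩ : g ∣ n - a - s := by
      have h1 : s ≡ n - a [MOD g] := hY1c
      exact (Nat.modEq_iff_dvd' (by omega)).1 h1
    have hjM : j ≤ M := by
      have h1 : g * j ≤ g * (2 * z) + (2 * z) ^ 3 := by omega
      by_contra hcon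
      push Not at hcon
      have h2 : g * M < g * j := Nat.mul_lt_mul_of_pos_left hcon hg0
      have h3 : g * ((2 * z) ^ 3 + 2 * z) ≤ g * M := Nat.mul_le_mul_left _ hM
      have h4 : (2 * z) ^ 3 ≤ g * (2 * z) ^ 3 := Nat.le_mul_of_pos_left _ hg0
      rw [mul_add] at h3
      omega
    obtain ⟨Y2, hY2, hY2s⟩ := hprog j hjM
    refine ⟨Y1 ∪ Y2, union_subset_union hY1 hY2, ?_⟩
    rw [sum_union (disjoint_of_subset_left hY1 (disjoint_of_subset_right hY2 hdisj)), hY2s,
      ← hs, ← hj]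
    omega
  -- absorb the third level
  have hc1 : Cov (B ∪ lev B 4 ∪ lev B 3) A (A + (2 * z) ^ 3 + esum B 3) := by
    rw [← sum_lev hB]
    apply hc0.union
    · rw [disjoint_union_left]
      refine ⟨?_, disjoint_lev hB (by norm_num)⟩
      conv_lhs => rw [hBlev]
      exact disjoint_lev hB (by norm_num)
    · intro x hx
      have := hlevb 3 x hx
      omega
  have hc2 : Cov (levs B 4) A (A + esum B 3) := by
    refine hc1.mono ?_ le_rfl (by omega)
    rw [union_subset_iff, union_subset_iff]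
    refine ⟨⟨?_, lev_subset_levs B le_rfl⟩, lev_subset_levs B (by norm_num)⟩
    conv_lhs => rw [hBlev]
    exact lev_subset_levs B (by norm_num)
  -- absorb the fifth level
  have hunion : ∀ j, levs B j ∪ lev B (j + 1) ⊆ levs B (j + 1) := by
    intro j
    rw [union_subset_iff]
    exact ⟨levs_mono B (by omega), lev_subset_levs B le_rfl⟩
  have hc3 : Cov (levs B 5) A (A + esum B 5) := by
    have h := hc2.union (lev B 5) (disjoint_levs hB (by norm_num)) (fun x hx => by
      have h1 := hlevb 5 x hx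
      have h4 := esum_lb hB1 3
      have h5 : (2 * z) ^ 5 ≤ B.card.choose 3 * z ^ 3 := by
        calc (2 * z) ^ 5 = 32 * z ^ 2 * z ^ 3 := by ring
          _ ≤ _ := Nat.mul_le_mul_right _ h3
      omega)
    rw [sum_lev hB] at h
    exact h.mono (hunion 4) le_rfl (by omega)
  have hc4 : ∀ j, 5 ≤ j → j < B.card → Cov (levs B j) A (A + esum B j) := by
    intro j h5 hj
    induction j, h5 using Nat.le_induction with
    | base => exact hc3
    | succ j h5 ih =>
      have ih' := ih (by omega)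
      have hstep : ∀ S ∈ B.powersetCard (j + 1), ∏ p ∈ S, p ≤ esum B j := by
        rcases le_or_gt (3 * j) B.card with h | h
        · exact stepI hB1 hB2 j (by omega) (by omega) (by nlinarith)
        · exact stepII hz hB hB1 hB2 j (by omega) (by omega) (h2 j h)
      have h := ih'.union (lev B (j + 1)) (disjoint_levs hB (by omega)) (fun x hx => by
        obtain ⟨S, hS, rfl⟩ := mem_image.1 hx
        have := hstep S hS
        omega)
      rw [sum_lev hB] at h
      exact h.mono (hunion j) le_rfl (by omega)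
  refine ⟨A, ?_, ?_⟩
  · have : g * (2 * z) ≤ H * (2 * z) := Nat.mul_le_mul_right _ hgH.le
    omega
  · have h := hc4 (B.card - 1) (by omega) (by omega)
    refine h.mono (levs_subset_properDivisors hB (by omega)) le_rfl ?_
    have := wsum_le_esum (B := B)
    omega

end Pool.Agent.N680.Weird
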