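import Mathlib
import Pool.Agent.N680.Weird.Levels

set_option autoImplicit false

namespace Pool.Agent.N680.Weird

open Finset

theorem wsum_insert {P : Finset ℕ} {q : ℕ} (hq : q ∉ P) :
    wsum (insert q P) = q * wsum P + ∏ p ∈ P, p := by
  classical
  rw [wsum, sum_insert hq, erase_insert hq, add_comm]
  congr 1
  rw [wsum, mul_sum]
  apply sum_congr rfl
  intro p hp
  have hne : q ≠ p := fun h => hq (h ▸ hp)
  rw [erase_insert_of_ne hne, prod_insert (fun h => hq (mem_of_mem_erase h))]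

theorem add_prime {P : Finset ℕ} {q A : ℕ} (hP : ∀ p ∈ P, p.Prime) (hq : q.Prime) (hqP : q ∉ P)
    (h : Cov (∏ p ∈ P, p).properDivisors A (wsum P)) (h1 : q + A ≤ wsum P)
    (h2 : ∏ p ∈ P, p + (1 + q) * A ≤ (1 + q) * wsum P + 1) :
    Cov (∏ p ∈ insert q P, p).properDivisors ((1 + q) * A) (wsum (insert q P)) := by
  classical
  set N := ∏ p ∈ P, p with hN
  set w := wsum P with hw
  have hNpos : 0 < N := prod_pos (fun p hp => (hP p hp).pos)
  have hqN : ¬ q ∣ N := by
    intro hd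
    obtain ⟨p, hp, hdp⟩ := (Prime.dvd_finsetProd_iff hq.prime _).1 hd
    have := (Nat.prime_dvd_prime_iff_eq hq (hP p hp)).1 hdp
    exact hqP (this ▸ hp)
  have hqpos := hq.pos
  have hNq : ∏ p ∈ insert q P, p = q * N := by rw [prod_insert hqP]
  rw [hNq, wsum_insert hqP, ← hw, ← hN]
  -- the main representation
  have key : ∀ n, (1 + q) * A ≤ n → n ≤ (1 + q) * w →
      ∃ Y Z : Finset ℕ, Y ⊆ N.properDivisors ∧ Z ⊆ N.properDivisors ∧
        ∑ y ∈ Y, y + q * ∑ y ∈ Z, y = n := by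
    intro n hn1 hn2
    obtain ⟨v, hv1, hv2, hv3, hv4⟩ : ∃ v, A ≤ v ∧ v ≤ w ∧ A + q * v ≤ n ∧ n ≤ w + q * v := by
      rcases le_or_gt n (w + q * A) with h3 | h3
      · refine ⟨A, le_rfl, by omega, ?_, h3⟩
        rw [add_mul, one_mul] at hn1
        exact hn1
      · -- v = ⌈(n - w)/q⌉
        set t := n - w with ht
        set v := (t + q - 1) / q with hv
        have e1 := Nat.div_add_mod (t + q - 1) q
        have e2 := Nat.mod_lt (t + q - 1) hqpos
        rw [← hv] at e1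
        have hqv1 : t ≤ q * v := by omega
        have hqv2 : q * v ≤ t + q - 1 := by omega
        refine ⟨v, ?_, ?_, ?_, ?_⟩
        · by_contra hcon
          push Not at hcon
          have : q * v ≤ q * A := Nat.mul_le_mul_left _ hcon.le
          omega
        · by_contra hcon
          push Not at hcon
          have : q * (w + 1) ≤ q * v := Nat.mul_le_mul_left _ hcon
          rw [mul_add, mul_one] at this
          rw [add_mul, one_mul] at hn2
          omega
        · omega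
        · omega
    obtain ⟨Y, hY, hYs⟩ := h (n - q * v) (by omega) (by omega)
    obtain ⟨Z, hZ, hZs⟩ := h v hv1 hv2
    exact ⟨Y, Z, hY, hZ, by rw [hYs, hZs]; omega⟩
  have hproper : ∀ x ∈ N.properDivisors, x ∈ (q * N).properDivisors ∧ ¬ q ∣ x := by
    intro x hx
    rw [Nat.mem_properDivisors] at hx ⊢
    refine ⟨⟨hx.1.mul_left q, ?_⟩, fun hd => hqN (hd.trans hx.1)⟩
    calc x < N := hx.2
      _ ≤ q * N := Nat.le_mul_of_pos_left _ hqpos
  have hproper2 : ∀ x ∈ N.properDivisors, q * x ∈ (q * N).properDivisors := by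
    intro x hx
    rw [Nat.mem_properDivisors] at hx ⊢
    exact ⟨Nat.mul_dvd_mul_left q hx.1, Nat.mul_lt_mul_of_pos_left hx.2 hqpos⟩
  have hinj : ∀ Z : Finset ℕ, Set.InjOn (fun x => q * x) (Z : Set ℕ) := by
    intro Z x _ y _ hxy
    exact Nat.eq_of_mul_eq_mul_left hqpos hxy
  have hdisj : ∀ Y Z : Finset ℕ, (∀ y ∈ Y, ¬ q ∣ y) → Disjoint Y (Z.image (fun x => q * x)) := by
    intro Y Z hY
    rw [disjoint_left]
    intro x hx hx'
    obtain ⟨z, _, rfl⟩ := mem_image.1 hx'
    exact hY _ hx (dvd_mul_right q z)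
  intro n hn1 hn2
  rcases le_or_gt n ((1 + q) * w) with h3 | h3
  · obtain ⟨Y, Z, hY, hZ, hs⟩ := key n hn1 h3
    refine ⟨Y ∪ Z.image (fun x => q * x), ?_, ?_⟩
    · rw [union_subset_iff]
      refine ⟨fun x hx => (hproper x (hY hx)).1, fun x hx => ?_⟩
      obtain ⟨z, hz, rfl⟩ := mem_image.1 hx
      exact hproper2 z (hZ hz)
    · rw [sum_union (hdisj Y Z (fun y hy => (hproper y (hY hy)).2)), sum_image (hinj Z),
        ← mul_sum, hs]
  · obtain ⟨Y, Z, hY, hZ, hs⟩ := key (n - N) (by omega) (by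
      rw [add_mul, one_mul]
      omega)
    have hNY : N ∉ Y := by
      intro hNY
      have := hY hNY
      rw [Nat.mem_properDivisors] at this
      exact lt_irrefl _ this.2
    refine ⟨insert N Y ∪ Z.image (fun x => q * x), ?_, ?_⟩
    · rw [union_subset_iff]
      refine ⟨fun x hx => ?_, fun x hx => ?_⟩
      · rw [mem_insert] at hx
        rcases hx with rfl | hx
        · rw [Nat.mem_properDivisors]
          refine ⟨dvd_mul_left _ _, ?_⟩
          have := hq.one_lt
          nlinarith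
        · exact (hproper x (hY hx)).1
      · obtain ⟨z, hz, rfl⟩ := mem_image.1 hx
        exact hproper2 z (hZ hz)
    · rw [sum_union (hdisj _ Z (fun y hy => by
          rw [mem_insert] at hy
          rcases hy with rfl | hy
          · exact hqN
          · exact (hproper y (hY hy)).2)), sum_image (hinj Z), ← mul_sum, sum_insert hNY,
          add_assoc, hs]
      have : N ≤ n := by
        have h5 : N ≤ (1 + q) * w + 1 := by omega
        omega
      omega

/-- the sum of the reciprocals -/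
noncomputable def mass (P : Finset ℕ) : ℝ := ∑ p ∈ P, (1 : ℝ) / p

theorem mass_insert {P : Finset ℕ} {q : ℕ} (hq : q ∉ P) : mass (insert q P) = 1 / q + mass P := by
  rw [mass, sum_insert hq, mass]

theorem mass_nonneg (P : Finset ℕ) : 0 ≤ mass P := sum_nonneg fun _ _ => by positivity

theorem wsum_eq {P : Finset ℕ} (hP : ∀ p ∈ P, 0 < p) :
    (wsum P : ℝ) = mass P * ((∏ p ∈ P, p : ℕ) : ℝ) := by
  classical
  rw [wsum, mass, Nat.cast_sum, sum_mul]
  apply sum_congr rfl
  intro p hp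
  rw [← mul_prod_erase P (fun x => x) hp]
  have : (p : ℝ) ≠ 0 := by have := hP p hp; positivity
  push_cast
  field_simp

/-- the invariant of the construction -/
def Inv (k : ℕ) (P : Finset ℕ) : Prop :=
  (∀ p ∈ P, p.Prime ∧ 2 ^ k ≤ p) ∧ 2 ^ (2 * k + 2) ≤ ∏ p ∈ P, p ∧
    ∃ A : ℕ, Cov (∏ p ∈ P, p).properDivisors A (wsum P) ∧
      (A : ℝ) * 2 ^ (k + 4) ≤ ((∏ p ∈ P, p : ℕ) : ℝ) * Real.exp (mass P)

theorem Inv.anti {k l : ℕ} {P : Finset ℕ} (h : Inv l P) (hkl : k ≤ l) : Inv k P := by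
  obtain ⟨h1, h2, A, h3, h4⟩ := h
  have hp : (2 : ℝ) ^ (k + 4) ≤ 2 ^ (l + 4) := pow_le_pow_right₀ (by norm_num) (by omega)
  refine ⟨fun p hp => ⟨(h1 p hp).1, le_trans (Nat.pow_le_pow_right (by norm_num) hkl) (h1 p hp).2⟩,
    le_trans (Nat.pow_le_pow_right (by norm_num) (by omega)) h2, A, h3, le_trans ?_ h4⟩
  exact mul_le_mul_of_nonneg_left hp (by positivity)

/-- from mass at least one we get a semiperfect number -/
theorem Inv.semiperfect {k : ℕ} {P : Finset ℕ} (h : Inv k P) (h1 : 1 ≤ mass P)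
    (h2 : mass P ≤ 2) :
    ∃ s ⊆ (∏ p ∈ P, p).properDivisors, ∑ i ∈ s, i = ∏ p ∈ P, p := by
  obtain ⟨hP, -, A, h3, h4⟩ := h
  have hNpos : 0 < ∏ p ∈ P, p := prod_pos (fun p hp => (hP p hp).1.pos)
  set N := ∏ p ∈ P, p with hN
  apply h3
  · have e1 : Real.exp (mass P) ≤ 8 := by
      have h5 : Real.exp (mass P) ≤ Real.exp 2 := Real.exp_le_exp.2 h2
      have h6 : Real.exp 2 = Real.exp 1 ^ 2 := by rw [← Real.exp_nat_mul]; norm_num
      have h7 := Real.exp_one_lt_d9
      have h8 := Real.exp_pos 1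
      nlinarith
    have e2 : (16 : ℝ) ≤ 2 ^ (k + 4) := by
      calc (16 : ℝ) = 2 ^ 4 := by norm_num
        _ ≤ 2 ^ (k + 4) := pow_le_pow_right₀ (by norm_num) (by omega)
    have e3 : (A : ℝ) * 16 ≤ A * 2 ^ (k + 4) := mul_le_mul_of_nonneg_left e2 (by positivity)
    have e4 : (N : ℝ) * Real.exp (mass P) ≤ N * 8 := mul_le_mul_of_nonneg_left e1 (by positivity)
    have : (A : ℝ) ≤ N := by
      have : (0 : ℝ) ≤ N := by positivity
      linarith
    exact_mod_cast this
  · have e1 := wsum_eq (P := P) (fun p hp => (hP p hp).1.pos)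
    have : (N : ℝ) ≤ wsum P := by
      rw [e1]
      have : (0 : ℝ) ≤ N := by positivity
      nlinarith
    exact_mod_cast this

/-- adding a prime -/
theorem Inv.insert {k : ℕ} {P : Finset ℕ} {q : ℕ} (h : Inv k P) (hq : q.Prime) (hqP : q ∉ P)
    (hq1 : 2 ^ k ≤ q) (hq2 : q < 2 ^ (k + 1)) (hm1 : 2 / 2 ^ k ≤ mass P) (hm2 : mass P ≤ 1) :
    Inv k (insert q P) := by
  obtain ⟨hP, hN2, A, h3, h4⟩ := h
  have hNpos : 0 < ∏ p ∈ P, p := prod_pos (fun p hp => (hP p hp).1.pos)
  have e1 := wsum_eq (P := P) (fun p hp => (hP p hp).1.pos)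
  set N := ∏ p ∈ P, p with hN
  set w := wsum P with hw
  have hNR : (0 : ℝ) < N := by exact_mod_cast hNpos
  have h2k : (0 : ℝ) < 2 ^ k := by positivity
  have hexp : Real.exp (mass P) ≤ 3 := by
    have h5 : Real.exp (mass P) ≤ Real.exp 1 := Real.exp_le_exp.2 hm2
    have h7 := Real.exp_one_lt_d9
    linarith
  have hA : (A : ℝ) * (16 * 2 ^ k) ≤ 3 * N := by
    have : (2 : ℝ) ^ (k + 4) = 16 * 2 ^ k := by rw [pow_add]; ring
    rw [this] at h4
    nlinarith
  have hwR : (2 : ℝ) * N ≤ w * 2 ^ k := by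
    rw [e1]
    rw [div_le_iff₀ h2k] at hm1
    nlinarith
  have hN2R : (4 : ℝ) * (2 ^ k * 2 ^ k) ≤ N := by
    have : ((2 ^ (2 * k + 2) : ℕ) : ℝ) ≤ N := by exact_mod_cast hN2
    have e : ((2 ^ (2 * k + 2) : ℕ) : ℝ) = 4 * (2 ^ k * 2 ^ k) := by
      push_cast
      rw [pow_add, two_mul, pow_add]; ring
    linarith
  have hq1R : (2 : ℝ) ^ k ≤ q := by exact_mod_cast hq1
  have hq2R : (q : ℝ) ≤ 2 * 2 ^ k := by
    have : (q : ℝ) ≤ ((2 ^ (k + 1) : ℕ) : ℝ) := by exact_mod_cast hq2.le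
    push_cast at this
    rw [pow_succ] at this
    linarith
  have hcov := add_prime (fun p hp => (hP p hp).1) hq hqP h3
    (by
      have : (q : ℝ) + A ≤ w := by
        have h5 : ((q : ℝ) + A) * (16 * 2 ^ k) ≤ w * (16 * 2 ^ k) := by nlinarith
        exact le_of_mul_le_mul_right h5 (by positivity)
      exact_mod_cast this)
    (by
      have h5 : (N : ℝ) + (1 + q) * A ≤ (1 + q) * w := by
        have h6 : (N : ℝ) ≤ q * (w - A) := by
          have h7 : (N : ℝ) / 2 ^ k ≤ w - A := by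
            rw [div_le_iff₀ h2k]
            nlinarith
          calc (N : ℝ) = 2 ^ k * (N / 2 ^ k) := by field_simp
            _ ≤ q * (w - A) := mul_le_mul hq1R h7 (by positivity) (by positivity)
        have h8 : 0 ≤ (w : ℝ) - A := by
          have : (0 : ℝ) ≤ (w - A) * (16 * 2 ^ k) := by nlinarith
          exact nonneg_of_mul_nonneg_left this (by positivity)
        nlinarith
      have h6 : N + (1 + q) * A ≤ (1 + q) * w := by exact_mod_cast h5
      exact h6.trans (Nat.le_succ _))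
  refine ⟨?_, ?_, (1 + q) * A, hcov, ?_⟩
  · intro p hp
    rw [mem_insert] at hp
    rcases hp with rfl | hp
    · exact ⟨hq, hq1⟩
    · exact hP p hp
  · rw [prod_insert hqP]
    exact hN2.trans (Nat.le_mul_of_pos_left _ hq.pos)
  · rw [prod_insert hqP, mass_insert hqP, Real.exp_add]
    push_cast
    have hqR : (0 : ℝ) < q := by exact_mod_cast hq.pos
    have h5 : (1 + (q : ℝ)) ≤ q * Real.exp (1 / q) := by
      have := Real.add_one_le_exp (1 / (q : ℝ))
      calc (1 + (q : ℝ)) = q * (1 / q + 1) := by field_simp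
        _ ≤ _ := mul_le_mul_of_nonneg_left this hqR.le
    have e : (N : ℝ) = ∏ p ∈ P, (p : ℝ) := by rw [hN]; push_cast; rfl
    rw [← e]
    calc (1 + (q : ℝ)) * A * 2 ^ (k + 4) = (1 + q) * (A * 2 ^ (k + 4)) := by ring
      _ ≤ (q * Real.exp (1 / q)) * (N * Real.exp (mass P)) :=
          mul_le_mul h5 h4 (by positivity) (by positivity)
      _ = _ := by ring

end Pool.Agent.N680.Weird
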