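import Mathlib
import Pool.Agent.N680.Weird.AddPrime

set_option autoImplicit false

namespace Pool.Agent.N680.Weird

open Finset

theorem base_inv {k D : ℕ} {B : Finset ℕ} (hB : ∀ p ∈ B, p.Prime ∧ 2 ^ k ≤ p ∧ p < 2 ^ (k + 1))
    (hD : 18432 ≤ D) (hz : D ^ 16 ≤ 2 ^ k) (hT : 2 ^ k ≤ D * B.card) : Inv k B := by
  set z := 2 ^ k with hzdef
  set T := B.card with hTdef
  have hDpos : 0 < D := by omega
  have hz0 : 0 < z := by positivity
  have hzD : ∀ i, i ≤ 16 → D ^ i ≤ z := fun i hi =>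
    (Nat.pow_le_pow_right hDpos hi).trans hz
  have hTD : D ^ 15 ≤ T := by
    have : D * D ^ 15 ≤ D * T := by
      calc D * D ^ 15 = D ^ 16 := by ring
        _ ≤ z := hz
        _ ≤ _ := hT
    exact Nat.le_of_mul_le_mul_left this hDpos
  have hDT : D ≤ T := le_trans (Nat.le_self_pow (by norm_num) D) hTD
  have hDz : D ≤ z := by simpa using hzD 1 (by norm_num)
  -- binomials
  have hc4 : z ^ 4 ≤ 384 * D ^ 4 * T.choose 4 := by
    have h1 : (T + 1 - 4) ^ 4 ≤ T.descFactorial 4 := Nat.pow_sub_le_descFactorial T 4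
    rw [Nat.descFactorial_eq_factorial_mul_choose] at h1
    have h2 : T ≤ 2 * (T + 1 - 4) := by omega
    have h3 : T ^ 4 ≤ 16 * (T + 1 - 4) ^ 4 := by
      calc T ^ 4 ≤ (2 * (T + 1 - 4)) ^ 4 := Nat.pow_le_pow_left h2 4
        _ = _ := by rw [mul_pow]; norm_num
    have h4 : (4 : ℕ).factorial = 24 := by decide
    rw [h4] at h1
    calc z ^ 4 ≤ (D * T) ^ 4 := Nat.pow_le_pow_left hT 4
      _ = D ^ 4 * T ^ 4 := by rw [mul_pow]
      _ ≤ D ^ 4 * (16 * (24 * T.choose 4)) := by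
          apply Nat.mul_le_mul_left
          omega
      _ = _ := by ring
  have hc3 : z ^ 3 ≤ 48 * D ^ 3 * T.choose 3 := by
    have h1 : (T + 1 - 3) ^ 3 ≤ T.descFactorial 3 := Nat.pow_sub_le_descFactorial T 3
    rw [Nat.descFactorial_eq_factorial_mul_choose] at h1
    have h2 : T ≤ 2 * (T + 1 - 3) := by omega
    have h3 : T ^ 3 ≤ 8 * (T + 1 - 3) ^ 3 := by
      calc T ^ 3 ≤ (2 * (T + 1 - 3)) ^ 3 := Nat.pow_le_pow_left h2 3
        _ = _ := by rw [mul_pow]; norm_num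
    have h4 : (3 : ℕ).factorial = 6 := by decide
    rw [h4] at h1
    calc z ^ 3 ≤ (D * T) ^ 3 := Nat.pow_le_pow_left hT 3
      _ = D ^ 3 * T ^ 3 := by rw [mul_pow]
      _ ≤ D ^ 3 * (8 * (6 * T.choose 3)) := by
          apply Nat.mul_le_mul_left
          omega
      _ = _ := by ring
  have hB1 : ∀ p ∈ B, z ≤ p := fun p hp => (hB p hp).2.1
  have hB2 : ∀ p ∈ B, p < 2 * z := fun p hp => by
    have := (hB p hp).2.2
    rwa [pow_succ, mul_comm] at this
  set H := D ^ 5 with hH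
  have hH0 : 0 < H := by positivity
  set X := 16 * z ^ 4 / H with hX
  have hXH : X * H ≤ 16 * z ^ 4 := Nat.div_mul_le_self _ _
  have hXH2 : 16 * z ^ 4 < (X + 1) * H := by
    have := Nat.lt_mul_div_succ (16 * z ^ 4) hH0
    rw [← hX] at this
    rw [mul_comm (X + 1)]
    exact this
  obtain ⟨A, hA, hcov⟩ := base (H := H) (R := X + 1) (M := 16 * z ^ 3) hz0
    (fun p hp => (hB p hp).1) hB1 hB2 hH0 (hzD 5 (by norm_num))
    (by
      calc H * H = D ^ 10 := by rw [hH]; ring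
        _ ≤ D ^ 15 := Nat.pow_le_pow_right hDpos (by norm_num)
        _ ≤ T := hTD)
    (by
      calc (2 * z) ^ 4 = 16 * z ^ 4 := by rw [mul_pow]; norm_num
        _ < _ := hXH2)
    (by
      -- X + 1 + H * H * (16 z^3) ≤ C(T,4)
      have e1 : 1152 * (D ^ 4 * X) ≤ z ^ 4 := by
        have : 18432 * (D ^ 4 * X) ≤ 16 * z ^ 4 := by
          calc 18432 * (D ^ 4 * X) ≤ D * (D ^ 4 * X) := Nat.mul_le_mul_right _ hD
            _ = X * H := by rw [hH]; ring
            _ ≤ _ := hXH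
        omega
      have e2 : 1152 * D ^ 4 ≤ z ^ 4 := by
        calc 1152 * D ^ 4 ≤ D * D ^ 4 := Nat.mul_le_mul_right _ (by omega)
          _ = D ^ 5 := by ring
          _ ≤ z := hzD 5 (by norm_num)
          _ ≤ z ^ 4 := Nat.le_self_pow (by norm_num) z
      have e3 : 1152 * (D ^ 4 * (H * H * (16 * z ^ 3))) ≤ z ^ 4 := by
        calc 1152 * (D ^ 4 * (H * H * (16 * z ^ 3))) = 18432 * D ^ 14 * z ^ 3 := by
              rw [hH]; ring
          _ ≤ D * D ^ 14 * z ^ 3 := by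
              apply Nat.mul_le_mul_right
              exact Nat.mul_le_mul_right _ hD
          _ = D ^ 15 * z ^ 3 := by ring
          _ ≤ z * z ^ 3 := Nat.mul_le_mul_right _ (hzD 15 (by norm_num))
          _ = z ^ 4 := by ring
      have e4 : 384 * D ^ 4 * (X + 1 + H * H * (16 * z ^ 3)) ≤ 384 * D ^ 4 * T.choose 4 := by
        refine le_trans ?_ hc4
        have : 3 * (384 * D ^ 4 * (X + 1 + H * H * (16 * z ^ 3))) ≤ 3 * z ^ 4 := by
          calc 3 * (384 * D ^ 4 * (X + 1 + H * H * (16 * z ^ 3)))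
              = 1152 * (D ^ 4 * X) + 1152 * D ^ 4 + 1152 * (D ^ 4 * (H * H * (16 * z ^ 3))) := by
                ring
            _ ≤ z ^ 4 + z ^ 4 + z ^ 4 := by omega
            _ = _ := by ring
        omega
      exact Nat.le_of_mul_le_mul_left e4 (by positivity))
    (by
      have : z ≤ z ^ 3 := Nat.le_self_pow (by norm_num) z
      calc (2 * z) ^ 3 + 2 * z = 8 * z ^ 3 + 2 * z := by rw [mul_pow]; norm_num
        _ ≤ 16 * z ^ 3 := by omega)
    (by
      have e1 : 48 * D ^ 3 * (32 * z ^ 2) ≤ 48 * D ^ 3 * T.choose 3 := by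
        refine le_trans ?_ hc3
        calc 48 * D ^ 3 * (32 * z ^ 2) = 1536 * D ^ 3 * z ^ 2 := by ring
          _ ≤ D * D ^ 3 * z ^ 2 := by
              apply Nat.mul_le_mul_right
              exact Nat.mul_le_mul_right _ (by omega)
          _ = D ^ 4 * z ^ 2 := by ring
          _ ≤ z * z ^ 2 := Nat.mul_le_mul_right _ (hzD 4 (by norm_num))
          _ = z ^ 3 := by ring
      exact Nat.le_of_mul_le_mul_left e1 (by positivity))
    (by
      intro j hj
      have e0 : 2 * (j + 1).choose 2 = (j + 1) * j := by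
        rw [Nat.choose_two_right, Nat.add_sub_cancel]
        apply Nat.mul_div_cancel'
        have := Nat.even_mul_succ_self j
        rw [mul_comm] at this
        exact this.two_dvd
      have e1 : z ^ 2 ≤ 9 * D ^ 2 * (j ^ 2) := by
        calc z ^ 2 ≤ (D * T) ^ 2 := Nat.pow_le_pow_left hT 2
          _ ≤ (D * (3 * j)) ^ 2 := Nat.pow_le_pow_left (Nat.mul_le_mul_left _ hj.le) 2
          _ = _ := by ring
      have e2 : 9 * D ^ 2 * (8 * z) ≤ 9 * D ^ 2 * (j ^ 2) := by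
        refine le_trans ?_ e1
        calc 9 * D ^ 2 * (8 * z) = 72 * D ^ 2 * z := by ring
          _ ≤ D * D ^ 2 * z := by
              apply Nat.mul_le_mul_right
              exact Nat.mul_le_mul_right _ (by omega)
          _ = D ^ 3 * z := by ring
          _ ≤ z * z := Nat.mul_le_mul_right _ (hzD 3 (by norm_num))
          _ = z ^ 2 := by ring
      have e3 : 8 * z ≤ j ^ 2 := Nat.le_of_mul_le_mul_left e2 (by positivity)
      nlinarith)
    (by omega)
  have hprod : ∀ i, i ≤ T → z ^ i ≤ ∏ p ∈ B, p := by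
    intro i hi
    calc z ^ i ≤ z ^ T := Nat.pow_le_pow_right hz0 hi
      _ ≤ ∏ p ∈ B, p := pow_card_le_prod B _ _ hB1
  have hk : 1 ≤ k := by
    by_contra hcon
    have : k = 0 := by omega
    rw [this] at hzdef
    omega
  refine ⟨fun p hp => ⟨(hB p hp).1, (hB p hp).2.1⟩, ?_, A, hcov, ?_⟩
  · calc 2 ^ (2 * k + 2) ≤ 2 ^ (k * 4) := Nat.pow_le_pow_right (by norm_num) (by omega)
      _ = z ^ 4 := by rw [hzdef, ← pow_mul]
      _ ≤ _ := hprod 4 (by omega)
  · have hA2 : A ≤ z ^ 8 := by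
      have h1 : (X + 1) * H ≤ 17 * z ^ 4 := by
        have : H ≤ z ^ 4 := (hzD 5 (by norm_num)).trans (Nat.le_self_pow (by norm_num) z)
        rw [add_mul, one_mul]
        omega
      have h2 : 16 * z ^ 3 * ((X + 1) * H) ≤ 16 * z ^ 3 * (17 * z ^ 4) :=
        Nat.mul_le_mul_left _ h1
      have h3 : H * (2 * z) ≤ 2 * z ^ 7 := by
        calc H * (2 * z) ≤ z * (2 * z) := Nat.mul_le_mul_right _ (hzD 5 (by norm_num))
          _ = 2 * z ^ 2 := by ring
          _ ≤ 2 * z ^ 7 := Nat.mul_le_mul_left _ (Nat.pow_le_pow_right hz0 (by norm_num))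
      have h4 : 274 * z ^ 7 ≤ z ^ 8 := by
        rw [pow_succ z 7, mul_comm (z ^ 7)]
        exact Nat.mul_le_mul_right _ (by omega)
      have h5 : 16 * z ^ 3 * (17 * z ^ 4) = 272 * z ^ 7 := by ring
      omega
    have hA3 : A * 2 ^ (k + 4) ≤ ∏ p ∈ B, p := by
      calc A * 2 ^ (k + 4) = A * (16 * z) := by rw [pow_add, hzdef]; ring
        _ ≤ z ^ 8 * (z * z) := Nat.mul_le_mul hA2 (Nat.mul_le_mul_right _ (by omega))
        _ = z ^ 10 := by ring
        _ ≤ _ := hprod 10 (by omega)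
    have hexp : (1 : ℝ) ≤ Real.exp (mass B) := Real.one_le_exp (mass_nonneg B)
    have hA4 : (A : ℝ) * 2 ^ (k + 4) ≤ ((∏ p ∈ B, p : ℕ) : ℝ) := by exact_mod_cast hA3
    calc (A : ℝ) * 2 ^ (k + 4) ≤ ((∏ p ∈ B, p : ℕ) : ℝ) * 1 := by rw [mul_one]; exact hA4
      _ ≤ _ := mul_le_mul_of_nonneg_left hexp (by positivity)

/-- dense blocks of primes satisfy the invariant -/
theorem exists_base : ∃ J : ℕ, 1 ≤ J ∧ ∀ k ≥ J, ∀ B : Finset ℕ,
    (∀ p ∈ B, p.Prime ∧ 2 ^ k ≤ p ∧ p < 2 ^ (k + 1)) → 2 ^ k ≤ k ^ 2 * B.card → Inv k B := by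
  have h1 := tendsto_pow_const_div_const_pow_of_one_lt 32 (r := 2) (by norm_num)
  have h2 := h1.eventually (gt_mem_nhds (zero_lt_one (α := ℝ)))
  obtain ⟨J, hJ⟩ := Filter.eventually_atTop.1 h2
  refine ⟨max J 200, by omega, fun k hk B hB hT => ?_⟩
  have hkJ : J ≤ k := le_trans (le_max_left _ _) hk
  have hk2 : 200 ≤ k := le_trans (le_max_right _ _) hk
  have h3 := hJ k hkJ
  rw [div_lt_one (by positivity)] at h3
  have h4 : k ^ 32 ≤ 2 ^ k := by exact_mod_cast h3.le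
  refine base_inv (D := k ^ 2) hB ?_ ?_ hT
  · nlinarith
  · rw [← pow_mul]
    exact h4

end Pool.Agent.N680.Weird
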