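import Mathlib
import Pool.Agent.N680.Weird.BaseInv

set_option autoImplicit false

namespace Pool.Agent.N680.Weird

open Finset

/-- `m` is a sum of distinct proper divisors -/
def Semi (m : ℕ) : Prop := ∃ s ⊆ m.properDivisors, ∑ i ∈ s, i = m

theorem Semi.of_dvd {N m : ℕ} (hm : 0 < m) (hd : N ∣ m) (h : Semi N) : Semi m := by
  classical
  obtain ⟨s, hs, hsum⟩ := h
  obtain ⟨c, rfl⟩ := hd
  have hc : 0 < c := Nat.pos_of_mul_pos_left hm |> fun h => by
    rcases Nat.eq_zero_or_pos c with h0 | h0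
    · subst h0; simp at hm
    · exact h0
  refine ⟨s.image (fun x => x * c), ?_, ?_⟩
  · intro x hx
    obtain ⟨y, hy, rfl⟩ := mem_image.1 hx
    have := Nat.mem_properDivisors.1 (hs hy)
    rw [Nat.mem_properDivisors]
    exact ⟨Nat.mul_dvd_mul_right this.1 c, Nat.mul_lt_mul_of_pos_right this.2 hc⟩
  · rw [sum_image, ← sum_mul, hsum]
    intro x _ y _ hxy
    exact Nat.eq_of_mul_eq_mul_right hc hxy

/-- the prime factors of `m` in `[2 ^ k, 2 ^ (k + 1))` -/
def blk (m k : ℕ) : Finset ℕ := m.primeFactors.filter (fun p => 2 ^ k ≤ p ∧ p < 2 ^ (k + 1))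

/-- the block is dense -/
def Dense (m k : ℕ) : Prop := 2 ^ k ≤ k ^ 2 * (blk m k).card

theorem mem_blk {m k p : ℕ} (hp : p ∈ m.primeFactors) : p ∈ blk m k ↔ Nat.log 2 p = k := by
  have hp0 : p ≠ 0 := (Nat.prime_of_mem_primeFactors hp).ne_zero
  rw [blk, mem_filter]
  constructor
  · rintro ⟨-, h1, h2⟩
    exact (Nat.log_eq_iff (Or.inr ⟨by norm_num, hp0⟩)).2 ⟨h1, h2⟩
  · intro h
    have := (Nat.log_eq_iff (Or.inr ⟨by norm_num, hp0⟩)).1 h
    exact ⟨hp, this⟩

open scoped Classical in
/-- the prime factors of `m` at least `2 ^ k` in dense blocks -/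
noncomputable def ds (m k : ℕ) : Finset ℕ :=
  m.primeFactors.filter (fun p => k ≤ Nat.log 2 p ∧ Dense m (Nat.log 2 p))

theorem mass_union {P Q : Finset ℕ} (h : Disjoint P Q) : mass (P ∪ Q) = mass P + mass Q := by
  rw [mass, sum_union h]; rfl

theorem mass_mono {P Q : Finset ℕ} (h : P ⊆ Q) : mass P ≤ mass Q :=
  sum_le_sum_of_subset_of_nonneg h (fun _ _ _ => by positivity)

theorem ds_dense {m k : ℕ} (h : Dense m k) : ds m k = blk m k ∪ ds m (k + 1) := by
  classical
  ext p
  by_cases hp : p ∈ m.primeFactors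
  · rw [mem_union, mem_blk hp]
    simp only [ds, mem_filter, hp, true_and]
    constructor
    · rintro ⟨h1, h2⟩
      rcases Nat.eq_or_lt_of_le h1 with h3 | h3
      · exact Or.inl h3.symm
      · exact Or.inr ⟨h3, h2⟩
    · rintro (h1 | ⟨h1, h2⟩)
      · rw [h1]; exact ⟨le_rfl, h⟩
      · exact ⟨by omega, h2⟩
  · rw [mem_union]
    simp [ds, blk, hp]

theorem ds_not_dense {m k : ℕ} (h : ¬ Dense m k) : ds m k = ds m (k + 1) := by
  classical
  ext p
  simp only [ds, mem_filter]
  constructor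
  · rintro ⟨h0, h1, h2⟩
    refine ⟨h0, ?_, h2⟩
    rcases Nat.eq_or_lt_of_le h1 with h3 | h3
    · rw [← h3] at h2; exact absurd h2 h
    · exact h3
  · rintro ⟨h0, h1, h2⟩
    exact ⟨h0, by omega, h2⟩

theorem disjoint_blk_ds (m k : ℕ) : Disjoint (blk m k) (ds m (k + 1)) := by
  classical
  rw [disjoint_left]
  intro p hp hp'
  have h1 : p ∈ m.primeFactors := (mem_filter.1 hp).1
  rw [mem_blk h1] at hp
  simp only [ds, mem_filter] at hp'
  omega

section
variable {m : ℕ} (hm : 0 < m) (hsemi : ¬ Semi m)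

include hm hsemi in
theorem mass_lt_one {k : ℕ} {P : Finset ℕ} (hP : P ⊆ m.primeFactors) (h : Inv k P)
    (h2 : mass P ≤ 2) : mass P < 1 := by
  by_contra hcon
  push Not at hcon
  obtain ⟨s, hs, hsum⟩ := h.semiperfect hcon h2
  apply hsemi
  apply Semi.of_dvd hm _ ⟨s, hs, hsum⟩
  exact (prod_dvd_prod_of_subset _ _ _ hP).trans (Nat.prod_primeFactors_dvd m)

include hm hsemi in
theorem add_block {k : ℕ} {P : Finset ℕ} (hP : P ⊆ m.primeFactors) (hI : Inv (k + 1) P)
    (h1 : mass P < 1) (h2 : 2 / 2 ^ k ≤ mass P) (Q : Finset ℕ) (hQ : Q ⊆ blk m k) :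
    Inv k (Q ∪ P) ∧ mass (Q ∪ P) < 1 ∧ Disjoint Q P := by
  classical
  induction Q using Finset.induction_on with
  | empty =>
    rw [empty_union]
    exact ⟨hI.anti (by omega), h1, disjoint_empty_left _⟩
  | @insert q Q hq ih =>
    obtain ⟨i1, i2, i3⟩ := ih ((subset_insert _ _).trans hQ)
    have hqb : q ∈ blk m k := hQ (mem_insert_self _ _)
    rw [blk, mem_filter] at hqb
    have hqp : q.Prime := Nat.prime_of_mem_primeFactors hqb.1
    have hqP : q ∉ P := by
      intro h
      have := (hI.1 q h).2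
      omega
    have hqQP : q ∉ Q ∪ P := by
      rw [mem_union, not_or]
      exact ⟨hq, hqP⟩
    have hm1 : mass P ≤ mass (Q ∪ P) := mass_mono subset_union_right
    have hI' : Inv k (insert q (Q ∪ P)) :=
      i1.insert hqp hqQP hqb.2.1 hqb.2.2 (h2.trans hm1) i2.le
    have hsub : insert q (Q ∪ P) ⊆ m.primeFactors := by
      rw [insert_subset_iff, union_subset_iff]
      exact ⟨hqb.1, fun x hx => (mem_filter.1 (hQ (mem_insert_of_mem hx))).1, hP⟩
    have hq1 : (1 : ℝ) / q ≤ 1 := by
      have : (1 : ℝ) ≤ q := by exact_mod_cast hqp.one_lt.le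
      rw [div_le_one (by linarith)]
      exact this
    rw [insert_union]
    refine ⟨hI', mass_lt_one hm hsemi hsub hI' ?_, ?_⟩
    · rw [mass_insert hqQP]; linarith
    · rw [disjoint_insert_left]
      exact ⟨hqP, i3⟩

include hm hsemi in
theorem claim {J : ℕ} (hJ : ∀ k ≥ J, ∀ B : Finset ℕ,
    (∀ p ∈ B, p.Prime ∧ 2 ^ k ≤ p ∧ p < 2 ^ (k + 1)) → 2 ^ k ≤ k ^ 2 * B.card → Inv k B)
    (K : ℕ) (hK : m < 2 ^ K) (n : ℕ) : ∀ k, k + n = K → J ≤ k →
      ∃ P ⊆ m.primeFactors, mass P < 1 ∧ mass (ds m k) ≤ mass P + 4 / 2 ^ k ∧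
        (P = ∅ ∨ Inv k P) := by
  classical
  induction n with
  | zero =>
    intro k hk _
    have hkK : k = K := by omega
    have hds : ds m k = ∅ := by
      rw [eq_empty_iff_forall_notMem]
      intro p hp
      simp only [ds, mem_filter] at hp
      have h1 := Nat.le_of_mem_primeFactors hp.1
      have h2 : p < 2 ^ k := by rw [hkK]; omega
      have h3 := Nat.log_lt_of_lt_pow (Nat.prime_of_mem_primeFactors hp.1).ne_zero h2
      omega
    refine ⟨∅, empty_subset _, ?_, ?_, Or.inl rfl⟩
    · simp [mass]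
    · rw [hds]
      have : (0 : ℝ) ≤ 4 / 2 ^ k := by positivity
      simp only [mass, sum_empty]
      linarith
  | succ n ih =>
    intro k hk hJk
    obtain ⟨P, hPm, hP1, hP2, hP3⟩ := ih (k + 1) (by omega) (by omega)
    have e1 : (4 : ℝ) / 2 ^ (k + 1) = 2 / 2 ^ k := by
      rw [pow_succ]; field_simp; norm_num
    have e2 : (4 : ℝ) / 2 ^ k = 2 / 2 ^ k + 2 / 2 ^ k := by ring
    have e3 : (0 : ℝ) < 2 / 2 ^ k := by positivity
    rw [e1] at hP2
    by_cases hd : Dense m k
    · rw [ds_dense hd, mass_union (disjoint_blk_ds m k)]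
      have hbm : blk m k ⊆ m.primeFactors := filter_subset _ _
      rcases le_or_gt (2 / 2 ^ k) (mass P) with h | h
      · -- add the block
        have hI : Inv (k + 1) P := by
          rcases hP3 with rfl | hI
          · simp only [mass, sum_empty] at h
            linarith
          · exact hI
        obtain ⟨i1, i2, i3⟩ := add_block hm hsemi hPm hI hP1 h (blk m k) (Subset.refl _)
        refine ⟨blk m k ∪ P, union_subset hbm hPm, i2, ?_, Or.inr i1⟩
        rw [mass_union i3]
        linarith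
      · -- restart
        have hI : Inv k (blk m k) := by
          apply hJ k hJk _ _ hd
          intro p hp
          rw [blk, mem_filter] at hp
          exact ⟨Nat.prime_of_mem_primeFactors hp.1, hp.2⟩
        have hmass : mass (blk m k) ≤ 2 := by
          have h1 : mass (blk m k) ≤ ∑ p ∈ blk m k, (1 : ℝ) / 2 ^ k := by
            apply sum_le_sum
            intro p hp
            rw [blk, mem_filter] at hp
            have : (2 : ℝ) ^ k ≤ p := by exact_mod_cast hp.2.1
            exact one_div_le_one_div_of_le (by positivity) this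
          have h2 : (blk m k).card ≤ 2 ^ k := by
            calc (blk m k).card ≤ (Finset.Ico (2 ^ k) (2 ^ (k + 1))).card := by
                  apply card_le_card
                  intro p hp
                  rw [blk, mem_filter] at hp
                  exact Finset.mem_Ico.2 hp.2
              _ = 2 ^ k := by
                  rw [Nat.card_Ico, pow_succ]; omega
          rw [sum_const, nsmul_eq_mul] at h1
          have h3 : ((blk m k).card : ℝ) ≤ 2 ^ k := by exact_mod_cast h2
          have h4 : ((blk m k).card : ℝ) * (1 / 2 ^ k) ≤ 2 ^ k * (1 / 2 ^ k) :=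
            mul_le_mul_of_nonneg_right h3 (by positivity)
          have h5 : (2 : ℝ) ^ k * (1 / 2 ^ k) = 1 := by field_simp
          linarith
        refine ⟨blk m k, hbm, mass_lt_one hm hsemi hbm hI hmass, ?_, Or.inr hI⟩
        linarith
    · rw [ds_not_dense hd]
      refine ⟨P, hPm, hP1, by linarith, ?_⟩
      rcases hP3 with rfl | hI
      · exact Or.inl rfl
      · exact Or.inr (hI.anti (by omega))

end

/-- the total mass of the prime factors of a number that is not semiperfect is bounded -/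
theorem mass_bound : ∃ C : ℝ, ∀ m : ℕ, 0 < m → ¬ Semi m → mass m.primeFactors ≤ C := by
  classical
  obtain ⟨J, hJ1, hJ⟩ := exists_base
  have hsumm : Summable (fun k : ℕ => 1 / ((k : ℝ) ^ 2)) :=
    Real.summable_one_div_nat_pow.2 (by norm_num)
  refine ⟨2 ^ J + (∑' k : ℕ, 1 / ((k : ℝ) ^ 2)) + 5, fun m hm hsemi => ?_⟩
  obtain ⟨P, hPm, hP1, hP2, -⟩ := claim hm hsemi hJ (J + m)
    (lt_of_lt_of_le m.lt_two_pow_self (Nat.pow_le_pow_right (by norm_num) (by omega))) m J
    (by omega) le_rfl
  have h4 : (4 : ℝ) / 2 ^ J ≤ 4 := by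
    rw [div_le_iff₀ (by positivity)]
    have : (1 : ℝ) ≤ 2 ^ J := one_le_pow₀ (by norm_num)
    linarith
  -- split
  set S1 := m.primeFactors.filter (fun p => Nat.log 2 p < J) with hS1
  set S2 := m.primeFactors.filter (fun p => J ≤ Nat.log 2 p ∧ ¬ Dense m (Nat.log 2 p)) with hS2
  have hsplit : mass m.primeFactors ≤ mass S1 + mass S2 + mass (ds m J) := by
    have h1 : m.primeFactors ⊆ (S1 ∪ S2) ∪ ds m J := by
      intro p hp
      simp only [hS1, hS2, ds, mem_union, mem_filter, hp, true_and]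
      by_cases h1 : Nat.log 2 p < J
      · exact Or.inl (Or.inl h1)
      · by_cases h2 : Dense m (Nat.log 2 p)
        · exact Or.inr ⟨by omega, h2⟩
        · exact Or.inl (Or.inr ⟨by omega, h2⟩)
    have hun : ∀ A B : Finset ℕ, mass (A ∪ B) ≤ mass A + mass B := by
      intro A B
      have := sum_union_inter (s₁ := A) (s₂ := B) (f := fun p : ℕ => (1 : ℝ) / p)
      have h0 := mass_nonneg (A ∩ B)
      simp only [mass] at *
      linarith
    calc mass m.primeFactors ≤ mass ((S1 ∪ S2) ∪ ds m J) := mass_mono h1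
      _ ≤ mass (S1 ∪ S2) + mass (ds m J) := hun _ _
      _ ≤ _ := by have := hun S1 S2; linarith
  have hm1 : mass S1 ≤ 2 ^ J := by
    have h1 : mass S1 ≤ ∑ p ∈ S1, (1 : ℝ) := by
      apply sum_le_sum
      intro p hp
      have hpp := Nat.prime_of_mem_primeFactors (mem_filter.1 hp).1
      have : (1 : ℝ) ≤ p := by exact_mod_cast hpp.one_lt.le
      rw [div_le_one (by linarith)]
      exact this
    have h2 : S1.card ≤ 2 ^ J := by
      calc S1.card ≤ (range (2 ^ J)).card := by
            apply card_le_card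
            intro p hp
            rw [mem_range]
            have h3 := (mem_filter.1 hp).2
            exact (Nat.log_lt_iff_lt_pow (by norm_num)
              (Nat.prime_of_mem_primeFactors (mem_filter.1 hp).1).ne_zero).1 h3
        _ = 2 ^ J := card_range _
    rw [sum_const, nsmul_eq_mul, mul_one] at h1
    have h3 : (S1.card : ℝ) ≤ 2 ^ J := by exact_mod_cast h2
    linarith
  have hm2 : mass S2 ≤ ∑' k : ℕ, 1 / ((k : ℝ) ^ 2) := by
    set T := S2.image (fun p => Nat.log 2 p) with hT
    have h1 : mass S2 = ∑ k ∈ T, ∑ p ∈ S2 with Nat.log 2 p = k, (1 : ℝ) / p := by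
      rw [mass]
      exact (sum_fiberwise_of_maps_to (fun p hp => mem_image_of_mem _ hp) _).symm
    have h2 : ∀ k ∈ T, ∑ p ∈ S2 with Nat.log 2 p = k, (1 : ℝ) / p ≤ 1 / (k : ℝ) ^ 2 := by
      intro k hk
      obtain ⟨p0, hp0, hp0k⟩ := mem_image.1 hk
      rw [hS2, mem_filter] at hp0
      have hnd : ¬ Dense m k := by rw [← hp0k]; exact hp0.2.2
      have hkJ : J ≤ k := by rw [← hp0k]; exact hp0.2.1
      rw [Dense, not_le] at hnd
      have h3 : ∑ p ∈ S2 with Nat.log 2 p = k, (1 : ℝ) / p ≤
          ∑ p ∈ blk m k, (1 : ℝ) / 2 ^ k := by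
        calc ∑ p ∈ S2 with Nat.log 2 p = k, (1 : ℝ) / p
            ≤ ∑ p ∈ S2 with Nat.log 2 p = k, (1 : ℝ) / 2 ^ k := by
              apply sum_le_sum
              intro p hp
              rw [mem_filter] at hp
              have hpm : p ∈ m.primeFactors := (mem_filter.1 hp.1).1
              have h5 := (mem_blk hpm).2 hp.2
              rw [blk, mem_filter] at h5
              have : (2 : ℝ) ^ k ≤ p := by exact_mod_cast h5.2.1
              exact one_div_le_one_div_of_le (by positivity) this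
          _ ≤ ∑ p ∈ blk m k, (1 : ℝ) / 2 ^ k := by
              apply sum_le_sum_of_subset_of_nonneg
              · intro p hp
                rw [mem_filter] at hp
                exact (mem_blk (mem_filter.1 hp.1).1).2 hp.2
              · intro _ _ _; positivity
      refine h3.trans ?_
      rw [sum_const, nsmul_eq_mul]
      have hk0 : (0 : ℝ) < (k : ℝ) ^ 2 := by
        have : 0 < k := by omega
        positivity
      have h6 : (k : ℝ) ^ 2 * (blk m k).card ≤ 2 ^ k := by exact_mod_cast hnd.le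
      rw [mul_one_div, div_le_div_iff₀ (by positivity) hk0]
      linarith
    rw [h1]
    calc _ ≤ ∑ k ∈ T, 1 / (k : ℝ) ^ 2 := sum_le_sum h2
      _ ≤ _ := hsumm.sum_le_tsum T (fun _ _ => by positivity)
  linarith

theorem sum_pow_le {p : ℕ} (hp : 2 ≤ p) (v : ℕ) :
    ((∑ k ∈ range (v + 1), p ^ k : ℕ) : ℝ) ≤ (p : ℝ) ^ v * (1 + 2 / p) := by
  have hpR : (2 : ℝ) ≤ p := by exact_mod_cast hp
  have hp0 : (0 : ℝ) < p := by linarith
  induction v with
  | zero =>
    simp only [zero_add, range_one, sum_singleton, pow_zero, Nat.cast_one, one_mul]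
    have : (0 : ℝ) ≤ 2 / p := by positivity
    linarith
  | succ v ih =>
    rw [sum_range_succ]
    push_cast at ih ⊢
    have h1 : (p : ℝ) ^ v * (1 + 2 / p) ≤ p ^ (v + 1) * (2 / p) := by
      have e : (p : ℝ) ^ (v + 1) * (2 / p) = p ^ v * 2 := by
        rw [pow_succ]; field_simp
      rw [e]
      apply mul_le_mul_of_nonneg_left _ (by positivity)
      have : 2 / (p : ℝ) ≤ 1 := by rw [div_le_one hp0]; exact hpR
      linarith
    have h2 : (p : ℝ) ^ (v + 1) * (1 + 2 / p) = p ^ (v + 1) * (2 / p) + p ^ (v + 1) := by ring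
    linarith

theorem sigma_le {m : ℕ} (hm : m ≠ 0) :
    ((∑ i ∈ m.divisors, i : ℕ) : ℝ) ≤ m * Real.exp (2 * mass m.primeFactors) := by
  rw [Nat.sum_divisors hm]
  have h1 : (m : ℝ) = ∏ p ∈ m.primeFactors, (p : ℝ) ^ m.factorization p := by
    conv_lhs => rw [← Nat.prod_factorization_pow_eq_self hm]
    rw [Finsupp.prod, Nat.support_factorization]
    push_cast
    rfl
  have h2 : Real.exp (2 * mass m.primeFactors) = ∏ p ∈ m.primeFactors, Real.exp (2 / p) := by
    rw [← Real.exp_sum, mass, mul_sum]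
    congr 1
    apply sum_congr rfl
    intro p _
    ring
  rw [h2]
  conv_rhs => rw [h1]
  rw [← prod_mul_distrib, Nat.cast_prod]
  apply prod_le_prod
  · intro p _; positivity
  · intro p hp
    have hpp := Nat.prime_of_mem_primeFactors hp
    refine (sum_pow_le hpp.two_le _).trans ?_
    apply mul_le_mul_of_nonneg_left _ (by positivity)
    have := Real.add_one_le_exp (2 / (p : ℝ))
    linarith

theorem main : ∃ C : ℝ, ∀ m : ℕ, 0 < m → ¬ Semi m →
    ((∑ i ∈ m.divisors, i : ℕ) : ℝ) / (m : ℝ) ≤ C := by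
  obtain ⟨C, hC⟩ := mass_bound
  refine ⟨Real.exp (2 * C), fun m hm hs => ?_⟩
  have hmR : (0 : ℝ) < m := by exact_mod_cast hm
  rw [div_le_iff₀ hmR, mul_comm]
  refine (sigma_le hm.ne').trans ?_
  apply mul_le_mul_of_nonneg_left _ hmR.le
  apply Real.exp_le_exp.2
  have := hC m hm hs
  linarith

end Pool.Agent.N680.Weird
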